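import Mathlib

/-!
# Banach spaces of analytic functions, composition operators, strict singularity
-/

set_option autoImplicit false

open Metric

namespace Q170.SS

/-- The Banach space `E` is, via `J`, a Banach space of analytic functions on the unit disc:
`J f` is an analytic function on the disc, depends linearly and injectively on `f`, and the
point evaluations are continuous. -/
structure IsAnalyticSpace (E : Type*) [NormedAddCommGroup E] [NormedSpace ℂ E]
    (J : E → ℂ → ℂ) : Prop where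
  analytic : ∀ f, AnalyticOnNhd ℂ (J f) (ball 0 1)
  add : ∀ f g, ∀ z ∈ ball (0 : ℂ) 1, J (f + g) z = J f z + J g z
  smul : ∀ (c : ℂ) f, ∀ z ∈ ball (0 : ℂ) 1, J (c • f) z = c * J f z
  inj : ∀ f, (∀ z ∈ ball (0 : ℂ) 1, J f z = 0) → f = 0
  eval : ∀ z ∈ ball (0 : ℂ) 1, Continuous fun f => J f z

/-- All polynomials belong to `E`, and they are dense in `E`. -/
structure PolynomialsDense (E : Type*) [NormedAddCommGroup E] [NormedSpace ℂ E]
    (J : E → ℂ → ℂ) : Prop where
  mem : ∀ n : ℕ, ∃ f : E, ∀ z ∈ ball (0 : ℂ) 1, J f z = z ^ n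
  dense : Dense (Submodule.span ℂ {f : E | ∃ n : ℕ, ∀ z ∈ ball (0 : ℂ) 1, J f z = z ^ n} : Set E)

/-- `φ` is an analytic self-map of the unit disc and `T` is the composition operator
`f ↦ f ∘ φ` on `E`. -/
structure IsCompositionOperator {E : Type*} [NormedAddCommGroup E] [NormedSpace ℂ E]
    (J : E → ℂ → ℂ) (φ : ℂ → ℂ) (T : E →L[ℂ] E) : Prop where
  analytic : AnalyticOnNhd ℂ φ (ball 0 1)
  maps : ∀ z ∈ ball (0 : ℂ) 1, φ z ∈ ball (0 : ℂ) 1
  comp : ∀ f, ∀ z ∈ ball (0 : ℂ) 1, J (T f) z = J f (φ z)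

/-- `T` is strictly singular: it is not bounded below on any closed subspace of infinite
dimension. -/
def StrictlySingular {E : Type*} [NormedAddCommGroup E] [NormedSpace ℂ E] (T : E →L[ℂ] E) :
    Prop :=
  ∀ M : Submodule ℂ E, IsClosed (M : Set E) → ¬ FiniteDimensional ℂ M →
    ¬ ∃ c > 0, ∀ x ∈ M, c * ‖x‖ ≤ ‖T x‖

end Q170.SS
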