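import Pool.Agent.Q170.SS.Defs

/-!
# The inclusion of `ℓ²` into `ℓ⁴` is strictly singular
-/

set_option autoImplicit false

open Metric Set
open scoped ENNReal InnerProductSpace

namespace Q170.SS

instance fact14 : Fact (1 ≤ (4 : ℝ≥0∞)) := ⟨by norm_num⟩

/-- the sign `±1` -/
noncomputable def sg {ι : Type*} [DecidableEq ι] (s : Finset ι) (i : ι) : ℂ := if i ∈ s then 1 else -1

section signs

variable {ι : Type*} [DecidableEq ι]

theorem sg_insert {s : Finset ι} {a i : ι} (h : i ≠ a) : sg (insert a s) i = sg s i := by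
  simp [sg, h]

theorem sum_sg (t : Finset ι) (a : ι) (ha : a ∉ t) (z : ι → ℂ) (F : ℂ → ℝ) :
    ∑ s ∈ (insert a t).powerset, F (∑ i ∈ insert a t, sg s i * z i) =
      ∑ s ∈ t.powerset, (F (∑ i ∈ t, sg s i * z i - z a) + F (∑ i ∈ t, sg s i * z i + z a)) := by
  rw [Finset.sum_powerset_insert ha, ← Finset.sum_add_distrib]
  refine Finset.sum_congr rfl fun s hs => ?_
  have has : a ∉ s := fun h => ha (Finset.mem_powerset.1 hs h)
  congr 2
  · rw [Finset.sum_insert ha]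
    simp [sg, has]
    ring
  · rw [Finset.sum_insert ha]
    have : ∑ i ∈ t, sg (insert a s) i * z i = ∑ i ∈ t, sg s i * z i := by
      refine Finset.sum_congr rfl fun i hi => ?_
      rw [sg_insert]
      rintro rfl
      exact ha hi
    rw [this]
    simp [sg]
    ring

theorem sq_add (w z : ℂ) : ‖w - z‖ ^ 2 + ‖w + z‖ ^ 2 = 2 * ‖w‖ ^ 2 + 2 * ‖z‖ ^ 2 := by
  have := parallelogram_law_with_norm ℝ w z
  nlinarith

theorem four_add (w z : ℂ) :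
    ‖w - z‖ ^ 4 + ‖w + z‖ ^ 4 ≤ 2 * ‖w‖ ^ 4 + 12 * (‖w‖ ^ 2 * ‖z‖ ^ 2) + 2 * ‖z‖ ^ 4 := by
  have h1 : ‖w + z‖ ^ 2 = ‖w‖ ^ 2 + 2 * ⟪w, z⟫_ℝ + ‖z‖ ^ 2 := norm_add_sq_real w z
  have h2 : ‖w - z‖ ^ 2 = ‖w‖ ^ 2 - 2 * ⟪w, z⟫_ℝ + ‖z‖ ^ 2 := norm_sub_sq_real w z
  have h3 : |⟪w, z⟫_ℝ| ≤ ‖w‖ * ‖z‖ := abs_real_inner_le_norm w z
  have h4 : ⟪w, z⟫_ℝ ^ 2 ≤ (‖w‖ * ‖z‖) ^ 2 := by
    rw [← sq_abs ⟪w, z⟫_ℝ]
    exact pow_le_pow_left₀ (abs_nonneg _) h3 2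
  have e1 : ‖w + z‖ ^ 4 = (‖w‖ ^ 2 + 2 * ⟪w, z⟫_ℝ + ‖z‖ ^ 2) ^ 2 := by rw [← h1]; ring
  have e2 : ‖w - z‖ ^ 4 = (‖w‖ ^ 2 - 2 * ⟪w, z⟫_ℝ + ‖z‖ ^ 2) ^ 2 := by rw [← h2]; ring
  rw [e1, e2]
  nlinarith

theorem second (t : Finset ι) (z : ι → ℂ) :
    ∑ s ∈ t.powerset, ‖∑ i ∈ t, sg s i * z i‖ ^ 2 = 2 ^ t.card * ∑ i ∈ t, ‖z i‖ ^ 2 := by
  induction t using Finset.induction_on with
  | empty => simp
  | insert a t ha ih =>
    rw [sum_sg t a ha z (fun w => ‖w‖ ^ 2)]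
    simp only [sq_add]
    rw [Finset.sum_add_distrib, ← Finset.mul_sum, ih, Finset.sum_const, Finset.card_powerset,
      Finset.card_insert_of_notMem ha, Finset.sum_insert ha, nsmul_eq_mul]
    push_cast
    ring

theorem fourth (t : Finset ι) (z : ι → ℂ) :
    ∑ s ∈ t.powerset, ‖∑ i ∈ t, sg s i * z i‖ ^ 4 ≤
      3 * 2 ^ t.card * (∑ i ∈ t, ‖z i‖ ^ 2) ^ 2 := by
  induction t using Finset.induction_on with
  | empty => simp
  | insert a t ha ih =>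
    rw [sum_sg t a ha z (fun w => ‖w‖ ^ 4)]
    have h1 : ∑ s ∈ t.powerset, (‖∑ i ∈ t, sg s i * z i - z a‖ ^ 4 +
        ‖∑ i ∈ t, sg s i * z i + z a‖ ^ 4) ≤
        ∑ s ∈ t.powerset, (2 * ‖∑ i ∈ t, sg s i * z i‖ ^ 4 +
          12 * (‖∑ i ∈ t, sg s i * z i‖ ^ 2 * ‖z a‖ ^ 2) + 2 * ‖z a‖ ^ 4) :=
      Finset.sum_le_sum fun s _ => four_add _ _
    refine h1.trans ?_
    rw [Finset.sum_add_distrib, Finset.sum_add_distrib, ← Finset.mul_sum, ← Finset.mul_sum,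
      ← Finset.sum_mul, second, Finset.sum_const, Finset.card_powerset,
      Finset.card_insert_of_notMem ha, Finset.sum_insert ha, nsmul_eq_mul]
    push_cast
    have h2 : (0 : ℝ) ≤ 2 ^ t.card * ‖z a‖ ^ 4 := by positivity
    have e1 : (3 : ℝ) * 2 ^ (t.card + 1) * (‖z a‖ ^ 2 + ∑ i ∈ t, ‖z i‖ ^ 2) ^ 2 =
        2 * (3 * 2 ^ t.card * (∑ i ∈ t, ‖z i‖ ^ 2) ^ 2) +
          12 * ((2 ^ t.card * ∑ i ∈ t, ‖z i‖ ^ 2) * ‖z a‖ ^ 2) +
          6 * (2 ^ t.card * ‖z a‖ ^ 4) := by ring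
    rw [e1]
    linarith

end signs

theorem norm4 {α : Type*} (x : lp (fun _ : α => ℂ) 4) : ‖x‖ ^ 4 = ∑' a, ‖x a‖ ^ 4 := by
  have h := lp.norm_rpow_eq_tsum (p := 4) (by norm_num) x
  have e : (4 : ℝ≥0∞).toReal = ((4 : ℕ) : ℝ) := by norm_num
  rw [e] at h
  simpa only [Real.rpow_natCast] using h

theorem norm2 {α : Type*} (x : lp (fun _ : α => ℂ) 2) : ‖x‖ ^ 2 = ∑' a, ‖x a‖ ^ 2 := by
  have h := lp.norm_rpow_eq_tsum (p := 2) (by norm_num) x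
  have e : (2 : ℝ≥0∞).toReal = ((2 : ℕ) : ℝ) := by norm_num
  rw [e] at h
  simpa only [Real.rpow_natCast] using h

theorem summable2 {α : Type*} (x : lp (fun _ : α => ℂ) 2) : Summable fun a => ‖x a‖ ^ 2 := by
  have h := (lp.memℓp x).summable (by norm_num)
  have e : (2 : ℝ≥0∞).toReal = ((2 : ℕ) : ℝ) := by norm_num
  rw [e] at h
  simpa only [Real.rpow_natCast] using h

theorem summable4 {α : Type*} (x : lp (fun _ : α => ℂ) 2) : Summable fun a => ‖x a‖ ^ 4 := by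
  refine Summable.of_nonneg_of_le (fun a => by positivity) (fun a => ?_)
    ((summable2 x).mul_left (‖x‖ ^ 2))
  have h1 : ‖x a‖ ≤ ‖x‖ := lp.norm_apply_le_norm (by norm_num) x a
  have : ‖x a‖ ^ 4 = ‖x a‖ ^ 2 * ‖x a‖ ^ 2 := by ring
  rw [this]
  gcongr

theorem tsum4_le {α : Type*} (x : lp (fun _ : α => ℂ) 2) : ∑' a, ‖x a‖ ^ 4 ≤ ‖x‖ ^ 4 := by
  have h : ∑' a, ‖x a‖ ^ 4 ≤ ∑' a, ‖x‖ ^ 2 * ‖x a‖ ^ 2 := by
    refine (summable4 x).tsum_le_tsum (fun a => ?_) ((summable2 x).mul_left (‖x‖ ^ 2))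
    have h1 : ‖x a‖ ≤ ‖x‖ := lp.norm_apply_le_norm (by norm_num) x a
    have : ‖x a‖ ^ 4 = ‖x a‖ ^ 2 * ‖x a‖ ^ 2 := by ring
    rw [this]
    gcongr
  rw [tsum_mul_left, ← norm2] at h
  refine h.trans (le_of_eq (by ring))

/-- the inclusion of `ℓ²` into `ℓ⁴`, as a linear map -/
noncomputable def inclLin (α : Type*) : lp (fun _ : α => ℂ) 2 →ₗ[ℂ] lp (fun _ : α => ℂ) 4 where
  toFun x := ⟨x, (lp.memℓp x).of_exponent_ge (by norm_num)⟩
  map_add' _ _ := by ext a; rfl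
  map_smul' _ _ := by ext a; rfl

theorem inclLin_apply {α : Type*} (x : lp (fun _ : α => ℂ) 2) (a : α) :
    inclLin α x a = x a := rfl

theorem inclLin_norm {α : Type*} (x : lp (fun _ : α => ℂ) 2) :
    ‖inclLin α x‖ ≤ 1 * ‖x‖ := by
  rw [one_mul]
  have h1 : ‖inclLin α x‖ ^ 4 ≤ ‖x‖ ^ 4 := by
    rw [norm4]
    simp only [inclLin_apply]
    exact tsum4_le x
  exact (pow_le_pow_iff_left₀ (norm_nonneg _) (norm_nonneg _) (by norm_num : 4 ≠ 0)).1 h1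

/-- the inclusion of `ℓ²` into `ℓ⁴` -/
noncomputable def incl (α : Type*) : lp (fun _ : α => ℂ) 2 →L[ℂ] lp (fun _ : α => ℂ) 4 :=
  LinearMap.mkContinuous (inclLin α) 1 inclLin_norm

theorem incl_apply {α : Type*} (x : lp (fun _ : α => ℂ) 2) (a : α) : incl α x a = x a := rfl

/-- A subspace of `ℓ²` on which the norm of `ℓ⁴` is equivalent to the norm of `ℓ²` has
finite dimension. -/
theorem finite_dim {α : Type*} (X : Submodule ℂ (lp (fun _ : α => ℂ) 2)) (c : ℝ) (hc : 0 < c)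
    (h : ∀ x ∈ X, c * ‖x‖ ≤ ‖incl α x‖) : FiniteDimensional ℂ X := by
  classical
  by_contra hinf
  obtain ⟨n, hn⟩ := exists_nat_gt (3 / c ^ 4)
  -- an orthonormal system with `n` elements
  obtain ⟨X', hX', hfr⟩ : ∃ X' : Submodule ℂ (lp (fun _ : α => ℂ) 2), X' ≤ X ∧
      Module.finrank ℂ X' = n ∧ FiniteDimensional ℂ X' := by
    have h1 : (n : Cardinal) ≤ Module.rank ℂ X := by
      refine (Cardinal.natCast_lt_aleph0 (n := n)).le.trans ?_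
      rw [← not_lt]
      intro h2
      exact hinf (Module.rank_lt_aleph0_iff.1 h2)
    obtain ⟨s, hs, hli⟩ := exists_finset_linearIndependent_of_le_rank h1
    refine ⟨(Submodule.span ℂ (s : Set X)).map X.subtype, ?_, ?_, ?_⟩
    · rintro _ ⟨y, -, rfl⟩
      exact y.2
    · rw [Submodule.finrank_map_subtype_eq,
        finrank_span_finset_eq_card hli, hs]
    · infer_instance
  obtain ⟨hfr, hfd⟩ := hfr
  let u : OrthonormalBasis (Fin n) ℂ X' := (stdOrthonormalBasis ℂ X').reindex (finCongr hfr)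
  have hon : Orthonormal ℂ (fun i => (u i : lp (fun _ : α => ℂ) 2)) :=
    u.orthonormal.comp_linearIsometry X'.subtypeₗᵢ
  let W : Finset (Fin n) → lp (fun _ : α => ℂ) 2 :=
    fun s => ∑ i, sg s i • (u i : lp (fun _ : α => ℂ) 2)
  have hWX : ∀ s, W s ∈ X := fun s => hX' (X'.sum_mem fun i _ => X'.smul_mem _ (u i).2)
  have hW2 : ∀ s, ‖W s‖ ^ 2 = n := by
    intro s
    have h1 := hon.inner_sum (fun i => sg s i) (fun i => sg s i) Finset.univ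
    have h2 := inner_self_eq_norm_sq (𝕜 := ℂ) (W s)
    have h3 : ∀ i, (starRingEnd ℂ) (sg s i) * sg s i = 1 := by
      intro i
      simp only [sg]
      split_ifs <;> simp
    rw [← h2]
    have h4 : ⟪W s, W s⟫_ℂ = (n : ℂ) := by
      refine h1.trans ?_
      simp [h3]
    rw [h4]
    simp
  have hWa : ∀ s a, W s a = ∑ i, sg s i * (u i : lp (fun _ : α => ℂ) 2) a := by
    intro s a
    have h1 := congrFun (lp.coeFn_sum (fun i => sg s i • (u i : lp (fun _ : α => ℂ) 2))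
      Finset.univ) a
    rw [Finset.sum_apply] at h1
    exact h1
  -- Bessel
  have hB : ∀ a, ∑ i, ‖(u i : lp (fun _ : α => ℂ) 2) a‖ ^ 2 ≤ 1 := by
    intro a
    have h1 := hon.sum_inner_products_le (lp.single 2 a (1 : ℂ)) (s := Finset.univ)
    rw [lp.norm_single (by norm_num)] at h1
    simpa [lp.inner_single_right] using h1
  have hs2 : Summable fun a => ∑ i, ‖(u i : lp (fun _ : α => ℂ) 2) a‖ ^ 2 :=
    summable_sum fun i _ => summable2 _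
  have htot : ∑' a, ∑ i, ‖(u i : lp (fun _ : α => ℂ) 2) a‖ ^ 2 = n := by
    rw [Summable.tsum_finsetSum fun i _ => summable2 _]
    have : ∀ i, ∑' a, ‖(u i : lp (fun _ : α => ℂ) 2) a‖ ^ 2 = 1 := by
      intro i
      rw [← norm2, hon.1 i]
      norm_num
    simp [this]
  have hlow : ∀ s, c ^ 4 * n ^ 2 ≤ ∑' a, ‖W s a‖ ^ 4 := by
    intro s
    have h1 := h (W s) (hWX s)
    have h2 : (c * ‖W s‖) ^ 4 ≤ ‖incl α (W s)‖ ^ 4 :=
      pow_le_pow_left₀ (by positivity) h1 4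
    rw [norm4] at h2
    have h3 : (c * ‖W s‖) ^ 4 = c ^ 4 * (‖W s‖ ^ 2) ^ 2 := by ring
    rw [h3, hW2] at h2
    exact h2
  have hsum : ∑ s : Finset (Fin n), ∑' a, ‖W s a‖ ^ 4 ≤ 3 * 2 ^ n * n := by
    rw [← Summable.tsum_finsetSum fun s _ => summable4 _, ← htot, ← tsum_mul_left]
    refine Summable.tsum_le_tsum (fun a => ?_) (summable_sum fun s _ => summable4 _)
      (hs2.mul_left _)
    have h1 := fourth (Finset.univ : Finset (Fin n)) fun i => (u i : lp (fun _ : α => ℂ) 2) a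
    rw [Finset.powerset_univ, Finset.card_univ, Fintype.card_fin] at h1
    simp only [hWa]
    refine h1.trans ?_
    have h2 := hB a
    have h3 : 0 ≤ ∑ i, ‖(u i : lp (fun _ : α => ℂ) 2) a‖ ^ 2 :=
      Finset.sum_nonneg fun _ _ => by positivity
    have h4 : (∑ i, ‖(u i : lp (fun _ : α => ℂ) 2) a‖ ^ 2) ^ 2 ≤
        ∑ i, ‖(u i : lp (fun _ : α => ℂ) 2) a‖ ^ 2 := by nlinarith
    gcongr
  have hlow2 : (2 : ℝ) ^ n * (c ^ 4 * n ^ 2) ≤ ∑ s : Finset (Fin n), ∑' a, ‖W s a‖ ^ 4 := by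
    have : (2 : ℝ) ^ n * (c ^ 4 * n ^ 2) = ∑ _s : Finset (Fin n), c ^ 4 * (n : ℝ) ^ 2 := by
      rw [Finset.sum_const, Finset.card_univ, Fintype.card_finset, Fintype.card_fin,
        nsmul_eq_mul]
      push_cast
      ring
    rw [this]
    exact Finset.sum_le_sum fun s _ => hlow s
  have hc4 : 0 < c ^ 4 := by positivity
  have hnpos : (0 : ℝ) < n := lt_of_le_of_lt (by positivity) hn
  have hfin : (2 : ℝ) ^ n * (c ^ 4 * n ^ 2) ≤ 2 ^ n * (3 * n) := by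
    refine (hlow2.trans hsum).trans (le_of_eq (by ring))
  have h5 := le_of_mul_le_mul_left hfin (by positivity)
  have h6 : c ^ 4 * n ≤ 3 := by
    by_contra h7
    push Not at h7
    nlinarith
  rw [div_lt_iff₀ hc4] at hn
  linarith

end Q170.SS
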