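import Pool.Agent.Q170.SS.Sp

/-!
# A strictly singular composition operator which is not compact
-/

set_option autoImplicit false

open Metric Set Filter Topology
open scoped ENNReal

namespace Q170.SS

/-- the rank one operator `y ↦ y_p e_{p⁺}` -/
noncomputable def R (p : P) : lp (fun _ : P => ℂ) 4 →L[ℂ] lp (fun _ : P => ℂ) 2 :=
  LinearMap.mkContinuous
    { toFun := fun y => lp.single 2 (p.1, p.2 + 1) (y p)
      map_add' := fun x y => by
        rw [← lp.single_add]
        rfl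
      map_smul' := fun c x => by
        rw [RingHom.id_apply, ← lp.single_smul]
        rfl } 1 (fun y => by
      rw [one_mul]
      refine le_trans (le_of_eq (lp.norm_single (by norm_num) _ _)) ?_
      exact lp.norm_apply_le_norm (by norm_num) y p)

theorem R_apply (p : P) (y : lp (fun _ : P => ℂ) 4) :
    R p y = lp.single 2 (p.1, p.2 + 1) (y p) := rfl

theorem R_norm (p : P) : ‖R p‖ ≤ 1 := LinearMap.mkContinuous_norm_le _ zero_le_one _

theorem summable_S : Summable fun p : P => (eps p : ℂ) • R p := by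
  refine Summable.of_norm_bounded summable_eps fun p => ?_
  rw [norm_smul, Complex.norm_real, Real.norm_of_nonneg (eps_pos p).le]
  exact mul_le_of_le_one_right (eps_pos p).le (R_norm p)

/-- the second component of the composition operator -/
noncomputable def S : lp (fun _ : P => ℂ) 4 →L[ℂ] lp (fun _ : P => ℂ) 2 :=
  ∑' p : P, (eps p : ℂ) • R p

theorem hasSum_S (y : lp (fun _ : P => ℂ) 4) (a : P) :
    HasSum (fun p : P => (eps p : ℂ) * (R p y) a) (S y a) := by
  have h1 := summable_S.hasSum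
  have h2 := (ContinuousLinearMap.apply ℂ (lp (fun _ : P => ℂ) 2) y).hasSum h1
  have h3 : Continuous fun x : lp (fun _ : P => ℂ) 2 => x a := by
    have hl : ∀ x : lp (fun _ : P => ℂ) 2, ‖x a‖ ≤ 1 * ‖x‖ := fun x => by
      rw [one_mul]
      exact lp.norm_apply_le_norm (by norm_num) x a
    let l : lp (fun _ : P => ℂ) 2 →ₗ[ℂ] ℂ :=
      { toFun := fun x => x a
        map_add' := fun _ _ => rfl
        map_smul' := fun _ _ => rfl }
    exact (l.mkContinuous 1 hl).continuous
  let ev : lp (fun _ : P => ℂ) 2 →+ ℂ :=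
    { toFun := fun x => x a
      map_zero' := rfl
      map_add' := fun _ _ => rfl }
  exact h2.map ev h3

theorem S_zero (y : lp (fun _ : P => ℂ) 4) (i : ℕ) : S y (i, 0) = 0 := by
  refine (hasSum_S y (i, 0)).unique ?_
  have : ∀ p : P, (eps p : ℂ) * (R p y) (i, 0) = 0 := by
    intro p
    rw [R_apply, lp.single_apply_ne]
    · simp
    · simp
  simp only [this]
  exact hasSum_zero

theorem S_succ (y : lp (fun _ : P => ℂ) 4) (p : P) : S y (p.1, p.2 + 1) = eps p * y p := by
  refine (hasSum_S y (p.1, p.2 + 1)).unique ?_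
  have h1 := hasSum_single (f := fun q : P => (eps q : ℂ) * (R q y) (p.1, p.2 + 1)) p (by
    intro q hq
    rw [R_apply, lp.single_apply_ne]
    · simp
    · intro h
      apply hq
      simp only [Prod.mk.injEq, add_left_inj] at h
      exact Prod.ext h.1.symm h.2.symm)
  have h2 : (R p y) (p.1, p.2 + 1) = y p := by
    rw [R_apply, lp.single_apply_self]
  simp only [h2] at h1
  exact h1

/-- the composition operator with symbol `z ^ 2` -/
noncomputable def T : E →L[ℂ] E :=
  (ContinuousLinearMap.fst ℂ ℂ _).prod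
    (((S.comp (ContinuousLinearMap.snd ℂ _ _)).prod
      ((incl P).comp (ContinuousLinearMap.fst ℂ _ _))).comp (ContinuousLinearMap.snd ℂ _ _))

theorem T_fst (f : E) : (T f).1 = f.1 := rfl
theorem T_snd (f : E) : (T f).2.1 = S f.2.2 := rfl
theorem T_trd (f : E) : (T f).2.2 = incl P f.2.1 := rfl

theorem coef_T (f : E) (n : ℕ) : coef (T f) (2 * n) = coef f n := by
  rcases ex_cover n with rfl | ⟨p, rfl⟩ | ⟨p, rfl⟩
  · rw [mul_zero, coef_zero, coef_zero, T_fst]
  · rw [coef_two, coef_ex, T_trd, incl_apply]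
  · have h1 : 2 * (2 * ex p) = ex (p.1, p.2 + 1) := by
      simp only [ex]
      ring
    rw [h1, coef_ex, coef_two, T_snd, S_succ, ← mul_assoc, ← Complex.ofReal_mul, wt_succ]

theorem coef_T_odd (f : E) (n : ℕ) (hn : ∀ m, n ≠ 2 * m) : coef (T f) n = 0 := by
  rcases ex_cover n with rfl | ⟨p, rfl⟩ | ⟨p, rfl⟩
  · exact absurd rfl (hn 0)
  · rw [coef_ex, T_snd]
    rcases p with ⟨i, j⟩
    cases j with
    | zero => rw [S_zero, mul_zero]
    | succ j =>
      exfalso
      refine hn (2 * ex (i, j)) ?_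
      simp only [ex]
      ring
  · exact absurd rfl (hn _)

theorem J_T (f : E) (z : ℂ) : J (T f) z = J f (z ^ 2) := by
  have hinj : Function.Injective fun n : ℕ => 2 * n := fun a b h => by
    have : 2 * a = 2 * b := h
    omega
  have h1 : Function.support (fun n => coef (T f) n * z ^ n) ⊆ Set.range fun n : ℕ => 2 * n := by
    intro n hn
    by_contra h
    refine hn ?_
    have h2 : coef (T f) n = 0 := coef_T_odd f n fun m hm => h ⟨m, hm.symm⟩
    simp [h2]
  rw [J, J, ← hinj.tsum_eq h1]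
  exact tsum_congr fun n => by rw [coef_T, pow_mul]

theorem S_small (c : ℝ) (hc : 0 < c) : ∃ F : Finset P, ∀ y : lp (fun _ : P => ℂ) 4,
    (∀ p ∈ F, y p = 0) → ‖S y‖ ≤ c * ‖y‖ := by
  have h1 := summable_S.hasSum
  obtain ⟨F, hF⟩ := ((Metric.tendsto_nhds.1 h1) c hc).exists
  refine ⟨F, fun y hy => ?_⟩
  have h2 : (∑ p ∈ F, (eps p : ℂ) • R p) y = 0 := by
    rw [sum_apply]
    refine Finset.sum_eq_zero fun p hp => ?_
    rw [smul_apply, R_apply, hy p hp]
    simp
  have h3 : S y = (S - ∑ p ∈ F, (eps p : ℂ) • R p) y := by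
    rw [sub_apply, h2, sub_zero]
  rw [h3]
  refine (ContinuousLinearMap.le_opNorm _ _).trans ?_
  gcongr
  rw [dist_comm, dist_eq_norm] at hF
  exact hF.le

theorem strictlySingular : StrictlySingular T := by
  rintro M - hM ⟨c, hc, h⟩
  apply hM
  obtain ⟨F, hF⟩ := S_small (c / 2) (by linarith)
  -- finitely many linear conditions
  let g : M →ₗ[ℂ] ℂ × (F → ℂ) :=
    { toFun := fun f => (f.1.1, fun p => f.1.2.2 p)
      map_add' := fun _ _ => rfl
      map_smul' := fun _ _ => rfl }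
  let k : LinearMap.ker g →ₗ[ℂ] lp (fun _ : P => ℂ) 2 :=
    { toFun := fun f => f.1.1.2.1
      map_add' := fun _ _ => rfl
      map_smul' := fun _ _ => rfl }
  have hk : ∀ f : LinearMap.ker g, c * ‖f.1.1‖ ≤ ‖incl P (k f)‖ := by
    intro f
    have hf : g f.1 = 0 := f.2
    have h1 : f.1.1.1 = 0 := congrArg Prod.fst hf
    have h2 : ∀ p ∈ F, f.1.1.2.2 p = 0 := fun p hp => congrFun (congrArg Prod.snd hf) ⟨p, hp⟩
    have h3 := h f.1.1 f.1.2
    have h4 := hF f.1.1.2.2 h2
    have h5 : ‖f.1.1.2.2‖ ≤ ‖f.1.1‖ := (norm_snd_le f.1.1.2).trans (norm_snd_le f.1.1)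
    have h6 : ‖T f.1.1‖ = max ‖(T f.1.1).1‖ (max ‖(T f.1.1).2.1‖ ‖(T f.1.1).2.2‖) := rfl
    rw [T_fst, T_snd, T_trd, h1, norm_zero] at h6
    rw [h6] at h3
    by_cases h0 : ‖f.1.1‖ = 0
    · rw [h0, mul_zero]
      exact norm_nonneg _
    have hpos : 0 < ‖f.1.1‖ := lt_of_le_of_ne (norm_nonneg _) (Ne.symm h0)
    have h7 : ‖S f.1.1.2.2‖ < c * ‖f.1.1‖ := by
      refine lt_of_le_of_lt (h4.trans (mul_le_mul_of_nonneg_left h5 (by positivity))) ?_
      have : 0 < c * ‖f.1.1‖ := by positivity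
      linarith
    rcases le_max_iff.1 h3 with h8 | h8
    · exact absurd h8 (not_le.2 (by positivity))
    rcases le_max_iff.1 h8 with h9 | h9
    · exact absurd h9 (not_le.2 h7)
    · exact h9
  have hkinj : Function.Injective k := by
    refine (injective_iff_map_eq_zero k).2 fun f hf => ?_
    have h1 := hk f
    rw [hf, map_zero, norm_zero] at h1
    have h2 : ‖f.1.1‖ = 0 := by
      refine le_antisymm ?_ (norm_nonneg _)
      by_contra h3
      push Not at h3
      have : 0 < c * ‖f.1.1‖ := by positivity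
      linarith
    exact Subtype.ext (Subtype.ext (norm_eq_zero.1 h2))
  have hX : FiniteDimensional ℂ (LinearMap.range k) := by
    refine finite_dim _ c hc ?_
    rintro _ ⟨f, rfl⟩
    refine le_trans ?_ (hk f)
    have h1 : ‖k f‖ ≤ ‖f.1.1‖ := (norm_fst_le f.1.1.2).trans (norm_snd_le f.1.1)
    gcongr
  have hker : FiniteDimensional ℂ (LinearMap.ker g) :=
    Module.Finite.equiv (LinearEquiv.ofInjective k hkinj).symm
  rw [FiniteDimensional, ← Module.rank_lt_aleph0_iff, ← LinearMap.rank_range_add_rank_ker g]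
  exact Cardinal.add_lt_aleph0 (Module.rank_lt_aleph0_iff.2 inferInstance)
    (Module.rank_lt_aleph0_iff.2 hker)

theorem not_compact : ¬ IsCompactOperator T := by
  rintro ⟨K, hK, hKT⟩
  obtain ⟨r, hr, hball⟩ := Metric.mem_nhds_iff.1 hKT
  let e : ℕ → E := fun j => (0, (lp.single 2 ((0, j) : P) ((r / 2 : ℝ) : ℂ), 0))
  have hnorm : ∀ j, ‖lp.single (E := fun _ : P => ℂ) 2 ((0, j) : P) ((r / 2 : ℝ) : ℂ)‖ = r / 2 := by
    intro j
    rw [lp.norm_single (by norm_num), Complex.norm_real, Real.norm_of_nonneg (by positivity)]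
  have he : ∀ j, T (e j) ∈ K := by
    intro j
    apply hball
    rw [mem_ball_zero_iff]
    have h1 : ‖e j‖ = max ‖(0 : ℂ)‖ (max ‖lp.single (E := fun _ : P => ℂ) 2 ((0, j) : P)
      ((r / 2 : ℝ) : ℂ)‖ ‖(0 : lp (fun _ : P => ℂ) 4)‖) := rfl
    have h2 : (0 : ℝ) ≤ r / 2 := by linarith
    rw [h1, hnorm, norm_zero, norm_zero, max_eq_left h2, max_eq_right h2]
    linarith
  obtain ⟨a, -, φ, hφ, hlim⟩ := hK.tendsto_subseq he
  have hc := hlim.cauchySeq
  rw [Metric.cauchySeq_iff'] at hc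
  obtain ⟨N, hN⟩ := hc (r / 2) (by linarith)
  have h1 := hN (N + 1) (Nat.le_succ N)
  have h2 : φ N ≠ φ (N + 1) := (hφ (Nat.lt_succ_self N)).ne
  have h3 : r / 2 ≤ dist (T (e (φ (N + 1)))) (T (e (φ N))) := by
    rw [dist_eq_norm, ← map_sub]
    refine le_trans ?_ (norm_snd_le _)
    refine le_trans ?_ (norm_snd_le _)
    rw [T_trd]
    refine le_trans ?_ (lp.norm_apply_le_norm (by norm_num) _ ((0, φ N) : P))
    rw [incl_apply]
    have h4 : (e (φ (N + 1)) - e (φ N)).2.1 ((0, φ N) : P) = -((r / 2 : ℝ) : ℂ) := by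
      have h5 : (e (φ (N + 1)) - e (φ N)).2.1 ((0, φ N) : P) =
        (lp.single (E := fun _ : P => ℂ) 2 ((0, φ (N + 1)) : P) ((r / 2 : ℝ) : ℂ)) (0, φ N) -
        (lp.single (E := fun _ : P => ℂ) 2 ((0, φ N) : P) ((r / 2 : ℝ) : ℂ)) (0, φ N) := rfl
      rw [h5, lp.single_apply_self, lp.single_apply_ne]
      · simp
      · simpa using h2
    rw [h4, norm_neg, Complex.norm_real, Real.norm_of_nonneg (by positivity)]
  exact absurd h1 (not_lt.2 h3)

/-- the monomials -/
def monos : Set E := {f | ∃ n : ℕ, ∀ z ∈ ball (0 : ℂ) 1, J f z = z ^ n}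

theorem mem_monos {f : E} {n : ℕ} (h : ∀ m, coef f m = if m = n then 1 else 0) :
    ∀ z : ℂ, J f z = z ^ n := by
  intro z
  rw [J, tsum_eq_single n]
  · rw [h, if_pos rfl, one_mul]
  · intro m hm
    rw [h, if_neg hm, zero_mul]

theorem mono_zero : ∀ z : ℂ, J ((1, (0, 0)) : E) z = z ^ 0 := by
  refine mem_monos fun m => ?_
  rcases ex_cover m with rfl | ⟨p, rfl⟩ | ⟨p, rfl⟩
  · rw [coef_zero, if_pos rfl]
  · rw [coef_ex, if_neg (ex_ne p)]
    simp
  · have := ex_ne p
    rw [coef_two, if_neg (by omega)]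
    simp

theorem mono_ex (q : P) :
    ∀ z : ℂ, J ((0, (lp.single 2 q ((wt q : ℂ)⁻¹), 0)) : E) z = z ^ (ex q) := by
  have hw : (wt q : ℂ) ≠ 0 := by exact_mod_cast (wt_pos q).ne'
  refine mem_monos fun m => ?_
  rcases ex_cover m with rfl | ⟨p, rfl⟩ | ⟨p, rfl⟩
  · rw [coef_zero, if_neg (ex_ne q).symm]
  · rw [coef_ex]
    by_cases h : p = q
    · subst h
      rw [if_pos rfl]
      show (wt p : ℂ) * (lp.single (E := fun _ : P => ℂ) 2 p ((wt p : ℂ)⁻¹)) p = 1
      rw [lp.single_apply_self, mul_inv_cancel₀ hw]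
    · rw [if_neg fun h' => h (ex_inj h')]
      show (wt p : ℂ) * (lp.single (E := fun _ : P => ℂ) 2 q ((wt q : ℂ)⁻¹)) p = 0
      rw [lp.single_apply_ne _ _ _ h, mul_zero]
  · rw [coef_two, if_neg (ex_ne_two q p).symm]
    show (wt p : ℂ) * ((0 : lp (fun _ : P => ℂ) 4) p) = 0
    simp

theorem mono_two (q : P) :
    ∀ z : ℂ, J ((0, (0, lp.single 4 q ((wt q : ℂ)⁻¹))) : E) z = z ^ (2 * ex q) := by
  have hw : (wt q : ℂ) ≠ 0 := by exact_mod_cast (wt_pos q).ne'
  refine mem_monos fun m => ?_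
  rcases ex_cover m with rfl | ⟨p, rfl⟩ | ⟨p, rfl⟩
  · have := ex_ne q
    rw [coef_zero, if_neg (by omega)]
  · rw [coef_ex, if_neg (ex_ne_two p q)]
    show (wt p : ℂ) * ((0 : lp (fun _ : P => ℂ) 2) p) = 0
    simp
  · rw [coef_two]
    by_cases h : p = q
    · subst h
      rw [if_pos rfl]
      show (wt p : ℂ) * (lp.single (E := fun _ : P => ℂ) 4 p ((wt p : ℂ)⁻¹)) p = 1
      rw [lp.single_apply_self, mul_inv_cancel₀ hw]
    · rw [if_neg fun h' => h (two_ex_inj h')]
      show (wt p : ℂ) * (lp.single (E := fun _ : P => ℂ) 4 q ((wt q : ℂ)⁻¹)) p = 0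
      rw [lp.single_apply_ne _ _ _ h, mul_zero]

theorem dense_monos : Dense (Submodule.span ℂ monos : Set E) := by
  rw [Submodule.dense_iff_topologicalClosure_eq_top, eq_top_iff]
  set N := (Submodule.span ℂ monos).topologicalClosure with hN
  have hcl : IsClosed (N : Set E) := Submodule.isClosed_topologicalClosure _
  have hsub : monos ⊆ N := fun f hf =>
    (Submodule.le_topologicalClosure _) (Submodule.subset_span hf)
  have h1 : ∀ c : ℂ, ((c, (0, 0)) : E) ∈ N := by
    intro c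
    have := N.smul_mem c (hsub ⟨0, fun z _ => mono_zero z⟩)
    have e : c • ((1, (0, 0)) : E) = (c, (0, 0)) := by
      refine Prod.ext ?_ (Prod.ext ?_ ?_) <;> simp
    rwa [e] at this
  have h2 : ∀ (q : P) (c : ℂ), ((0, (lp.single 2 q c, 0)) : E) ∈ N := by
    intro q c
    have hw : (wt q : ℂ) ≠ 0 := by exact_mod_cast (wt_pos q).ne'
    have := N.smul_mem (c * wt q) (hsub ⟨ex q, fun z _ => mono_ex q z⟩)
    have e : (c * wt q) • ((0, (lp.single 2 q ((wt q : ℂ)⁻¹), 0)) : E) =
        (0, (lp.single 2 q c, 0)) := by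
      refine Prod.ext ?_ (Prod.ext ?_ ?_)
      · simp
      · show (c * wt q) • lp.single (E := fun _ : P => ℂ) 2 q ((wt q : ℂ)⁻¹) = lp.single 2 q c
        rw [← lp.single_smul, smul_eq_mul, mul_assoc, mul_inv_cancel₀ hw, mul_one]
      · simp
    rwa [e] at this
  have h3 : ∀ (q : P) (c : ℂ), ((0, (0, lp.single 4 q c)) : E) ∈ N := by
    intro q c
    have hw : (wt q : ℂ) ≠ 0 := by exact_mod_cast (wt_pos q).ne'
    have := N.smul_mem (c * wt q) (hsub ⟨2 * ex q, fun z _ => mono_two q z⟩)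
    have e : (c * wt q) • ((0, (0, lp.single 4 q ((wt q : ℂ)⁻¹))) : E) =
        (0, (0, lp.single 4 q c)) := by
      refine Prod.ext ?_ (Prod.ext ?_ ?_)
      · simp
      · simp
      · show (c * wt q) • lp.single (E := fun _ : P => ℂ) 4 q ((wt q : ℂ)⁻¹) = lp.single 4 q c
        rw [← lp.single_smul, smul_eq_mul, mul_assoc, mul_inv_cancel₀ hw, mul_one]
    rwa [e] at this
  rintro ⟨c, x, y⟩ -
  have h4 : ((0, (x, 0)) : E) ∈ N := by
    have hs := lp.hasSum_single (p := 2) (by norm_num) x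
    have hc : Continuous fun w : lp (fun _ : P => ℂ) 2 => ((0, (w, 0)) : E) := by fun_prop
    let ev : lp (fun _ : P => ℂ) 2 →+ E :=
      { toFun := fun w => (0, (w, 0))
        map_zero' := rfl
        map_add' := fun a b => by
          refine Prod.ext ?_ (Prod.ext ?_ ?_) <;> simp }
    have := hs.map ev hc
    exact hcl.mem_of_tendsto this (Eventually.of_forall fun F => N.sum_mem fun q _ => h2 q _)
  have h5 : ((0, (0, y)) : E) ∈ N := by
    have hs := lp.hasSum_single (p := 4) (by norm_num) y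
    have hc : Continuous fun w : lp (fun _ : P => ℂ) 4 => ((0, (0, w)) : E) := by fun_prop
    let ev : lp (fun _ : P => ℂ) 4 →+ E :=
      { toFun := fun w => (0, (0, w))
        map_zero' := rfl
        map_add' := fun a b => by
          refine Prod.ext ?_ (Prod.ext ?_ ?_) <;> simp }
    have := hs.map ev hc
    exact hcl.mem_of_tendsto this (Eventually.of_forall fun F => N.sum_mem fun q _ => h3 q _)
  have e : ((c, (x, y)) : E) = (c, (0, 0)) + ((0, (x, 0)) + (0, (0, y))) := by
    refine Prod.ext ?_ (Prod.ext ?_ ?_) <;> simp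
  rw [e]
  exact N.add_mem (h1 c) (N.add_mem h4 h5)

theorem polynomialsDense : PolynomialsDense E J where
  mem n := by
    rcases ex_cover n with rfl | ⟨p, rfl⟩ | ⟨p, rfl⟩
    · exact ⟨_, fun z _ => mono_zero z⟩
    · exact ⟨_, fun z _ => mono_ex p z⟩
    · exact ⟨_, fun z _ => mono_two p z⟩
  dense := dense_monos

theorem isCompositionOperator : IsCompositionOperator J (fun z => z ^ 2) T where
  analytic := fun z _ => by fun_prop
  maps z hz := by
    rw [mem_ball_zero_iff] at hz ⊢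
    rw [norm_pow]
    exact pow_lt_one₀ (norm_nonneg _) hz two_ne_zero
  comp f z _ := J_T f z

theorem main : ∃ (E : Type) (_ : NormedAddCommGroup E) (_ : NormedSpace ℂ E)
    (_ : CompleteSpace E) (J : E → ℂ → ℂ) (T : E →L[ℂ] E), IsAnalyticSpace E J ∧
      PolynomialsDense E J ∧ IsCompositionOperator J (fun z => z ^ 2) T ∧
      StrictlySingular T ∧ ¬ IsCompactOperator T :=
  ⟨E, inferInstance, inferInstance, inferInstance, J, T, isAnalyticSpace, polynomialsDense,
    isCompositionOperator, strictlySingular, not_compact⟩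

end Q170.SS
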