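import Pool.Agent.Q170.SS.L24

/-!
# The space of analytic functions
-/

set_option autoImplicit false

open Metric Set Filter Topology
open scoped ENNReal

namespace Q170.SS

abbrev P : Type := ℕ × ℕ

/-- `(2 i + 1) 4 ^ j` -/
def ex (p : P) : ℕ := (2 * p.1 + 1) * 4 ^ p.2

theorem ex_ne (p : P) : ex p ≠ 0 := by
  unfold ex
  positivity

theorem ex_inj : Function.Injective ex := by
  have key : ∀ i j i' j' : ℕ, j < j' → (2 * i + 1) * 4 ^ j ≠ (2 * i' + 1) * 4 ^ j' := by
    intro i j i' j' hj h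
    obtain ⟨k, rfl⟩ : ∃ k, j' = j + (k + 1) := ⟨j' - j - 1, by omega⟩
    rw [pow_add, ← mul_assoc, mul_right_comm] at h
    have h1 := Nat.eq_of_mul_eq_mul_right (by positivity) h
    have e : (2 * i' + 1) * 4 ^ (k + 1) = 2 * ((2 * i' + 1) * 4 ^ k * 2) := by ring
    rw [e] at h1
    omega
  rintro ⟨i, j⟩ ⟨i', j'⟩ h
  simp only [ex] at h
  rcases lt_trichotomy j j' with hj | rfl | hj
  · exact absurd h (key _ _ _ _ hj)
  · have h1 := Nat.eq_of_mul_eq_mul_right (by positivity) h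
    simp only [Prod.mk.injEq, and_true]
    omega
  · exact absurd h.symm (key _ _ _ _ hj)

theorem ex_ne_two (p q : P) : ex p ≠ 2 * ex q := by
  obtain ⟨i, j⟩ := p
  obtain ⟨i', j'⟩ := q
  simp only [ex]
  intro h
  rcases le_or_gt j j' with hj | hj
  · obtain ⟨k, rfl⟩ := Nat.exists_eq_add_of_le hj
    rw [pow_add] at h
    have e : 2 * ((2 * i' + 1) * (4 ^ j * 4 ^ k)) = (2 * ((2 * i' + 1) * 4 ^ k)) * 4 ^ j := by ring
    rw [e] at h
    have h1 := Nat.eq_of_mul_eq_mul_right (by positivity) h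
    omega
  · obtain ⟨k, rfl⟩ : ∃ k, j = j' + (k + 1) := ⟨j - j' - 1, by omega⟩
    rw [pow_add, pow_succ] at h
    have e1 : (2 * i + 1) * (4 ^ j' * (4 ^ k * 4)) = (4 * ((2 * i + 1) * 4 ^ k)) * 4 ^ j' := by ring
    have e2 : 2 * ((2 * i' + 1) * 4 ^ j') = (2 * (2 * i' + 1)) * 4 ^ j' := by ring
    rw [e1, e2] at h
    have h1 := Nat.eq_of_mul_eq_mul_right (by positivity) h
    omega

theorem two_ex_inj : Function.Injective fun p : P => 2 * ex p := fun p q h => by
  refine ex_inj ?_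
  have : 2 * ex p = 2 * ex q := h
  omega

theorem ex_cover (n : ℕ) : n = 0 ∨ (∃ p, n = ex p) ∨ ∃ p, n = 2 * ex p := by
  by_cases hn : n = 0
  · exact Or.inl hn
  right
  obtain ⟨k, m, ⟨i, rfl⟩, rfl⟩ := Nat.exists_eq_two_pow_mul_odd hn
  rcases Nat.even_or_odd' k with ⟨j, rfl | rfl⟩
  · refine Or.inl ⟨(i, j), ?_⟩
    simp only [ex]
    rw [pow_mul]
    norm_num
    ring
  · refine Or.inr ⟨(i, j), ?_⟩
    simp only [ex]
    rw [pow_succ, pow_mul]
    norm_num
    ring

/-- the weight -/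
noncomputable def wt (p : P) : ℝ := Real.exp (Real.sqrt (ex p))

theorem wt_pos (p : P) : 0 < wt p := Real.exp_pos _

/-- the decay -/
noncomputable def eps (p : P) : ℝ := Real.exp (-Real.sqrt (ex p))

theorem eps_pos (p : P) : 0 < eps p := Real.exp_pos _

theorem wt_succ (p : P) : wt (p.1, p.2 + 1) * eps p = wt p := by
  have h : (ex (p.1, p.2 + 1) : ℝ) = 2 ^ 2 * ex p := by
    simp only [ex]
    push_cast
    ring
  rw [wt, wt, eps, h, Real.sqrt_mul (by positivity), Real.sqrt_sq (by norm_num), ← Real.exp_add]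
  congr 1
  ring

theorem summable_eps : Summable eps := by
  have h1 : Summable fun i : ℕ => 1 / ((i : ℝ) + 1) ^ 2 := by
    have := (summable_nat_add_iff 1).2 (Real.summable_one_div_nat_pow.2 (by norm_num : 1 < 2))
    simpa using this
  have h2 : Summable fun j : ℕ => ((1 : ℝ) / 16) ^ j :=
    summable_geometric_of_lt_one (by norm_num) (by norm_num)
  have h3 : Summable fun p : P => 24 * (1 / ((p.1 : ℝ) + 1) ^ 2 * (1 / 16 : ℝ) ^ p.2) :=
    (h1.mul_of_nonneg h2 (fun i => by positivity) (fun j => by positivity)).mul_left 24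
  refine Summable.of_nonneg_of_le (fun p => (eps_pos p).le) (fun p => ?_) h3
  have hs : 0 < Real.sqrt (ex p) := Real.sqrt_pos.2 (by exact_mod_cast Nat.pos_of_ne_zero (ex_ne p))
  have h4 := Real.pow_div_factorial_le_exp (Real.sqrt (ex p)) hs.le 4
  have e4 : Real.sqrt (ex p) ^ 4 = ((ex p : ℝ)) ^ 2 := by
    have : Real.sqrt (ex p) ^ 4 = (Real.sqrt (ex p) ^ 2) ^ 2 := by ring
    rw [this, Real.sq_sqrt (by positivity)]
  rw [e4] at h4
  have hexp : (0 : ℝ) < (ex p : ℝ) ^ 2 := by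
    have : (ex p : ℝ) ≠ 0 := by exact_mod_cast ex_ne p
    positivity
  rw [eps, Real.exp_neg]
  have h5 : (Real.exp (Real.sqrt (ex p)))⁻¹ ≤ ((ex p : ℝ) ^ 2 / (Nat.factorial 4))⁻¹ :=
    inv_anti₀ (by positivity) h4
  refine h5.trans ?_
  have h6 : ((ex p : ℝ)) ^ 2 = (2 * (p.1 : ℝ) + 1) ^ 2 * 16 ^ p.2 := by
    simp only [ex]
    push_cast
    rw [mul_pow, ← pow_mul, mul_comm p.2 2, pow_mul]
    norm_num
  rw [h6, inv_div, one_div, one_div, inv_pow]
  have h7 : ((Nat.factorial 4 : ℕ) : ℝ) = 24 := by norm_num [Nat.factorial]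
  rw [h7, div_eq_mul_inv, mul_inv]
  have h8 : ((p.1 : ℝ) + 1) ^ 2 ≤ (2 * (p.1 : ℝ) + 1) ^ 2 := by
    have : (0 : ℝ) ≤ p.1 := by positivity
    gcongr
    linarith
  have h9 : ((2 * (p.1 : ℝ) + 1) ^ 2)⁻¹ ≤ (((p.1 : ℝ) + 1) ^ 2)⁻¹ := inv_anti₀ (by positivity) h8
  gcongr

/-- the Banach space -/
abbrev E : Type := ℂ × (lp (fun _ : P => ℂ) 2 × lp (fun _ : P => ℂ) 4)

/-- the Taylor coefficients -/
noncomputable def coef (f : E) (n : ℕ) : ℂ :=
  Function.extend ex (fun p => (wt p : ℂ) * f.2.1 p) 0 n +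
    Function.extend (fun p : P => 2 * ex p) (fun p => (wt p : ℂ) * f.2.2 p) 0 n +
      if n = 0 then f.1 else 0

theorem coef_zero (f : E) : coef f 0 = f.1 := by
  rw [coef, Function.extend_apply' _ _ _ (by rintro ⟨p, hp⟩; exact ex_ne p hp),
    Function.extend_apply' _ _ _ (by
      rintro ⟨p, hp⟩
      have : 2 * ex p = 0 := hp
      have := ex_ne p
      omega)]
  simp

theorem coef_ex (f : E) (p : P) : coef f (ex p) = wt p * f.2.1 p := by
  rw [coef, ex_inj.extend_apply,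
    Function.extend_apply' _ _ _ (by rintro ⟨q, hq⟩; exact ex_ne_two p q hq.symm),
    if_neg (ex_ne p)]
  simp

theorem coef_two (f : E) (p : P) : coef f (2 * ex p) = wt p * f.2.2 p := by
  have h1 := two_ex_inj.extend_apply (fun p => (wt p : ℂ) * f.2.2 p) 0 p
  have h2 : Function.extend ex (fun p => (wt p : ℂ) * f.2.1 p) 0 (2 * ex p) = 0 :=
    Function.extend_apply' _ _ _ (by rintro ⟨q, hq⟩; exact ex_ne_two q p hq)
  have h3 : 2 * ex p ≠ 0 := by
    have := ex_ne p
    omega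
  rw [coef, h2, if_neg h3, zero_add, add_zero]
  exact h1

theorem coef_add (f g : E) (n : ℕ) : coef (f + g) n = coef f n + coef g n := by
  rcases ex_cover n with rfl | ⟨p, rfl⟩ | ⟨p, rfl⟩
  · simp [coef_zero]
  · simp [coef_ex, mul_add]
  · simp [coef_two, mul_add]

theorem coef_smul (c : ℂ) (f : E) (n : ℕ) : coef (c • f) n = c * coef f n := by
  rcases ex_cover n with rfl | ⟨p, rfl⟩ | ⟨p, rfl⟩
  · simp [coef_zero]
  · simp [coef_ex]
    ring
  · simp [coef_two]
    ring

theorem eq_zero_of_coef (f : E) (h : ∀ n, coef f n = 0) : f = 0 := by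
  have hw : ∀ p, (wt p : ℂ) ≠ 0 := fun p => by exact_mod_cast (wt_pos p).ne'
  refine Prod.ext ?_ (Prod.ext ?_ ?_)
  · rw [← coef_zero, h]
    rfl
  · ext p
    have := h (ex p)
    rw [coef_ex] at this
    exact (mul_eq_zero.1 this).resolve_left (hw p)
  · ext p
    have := h (2 * ex p)
    rw [coef_two] at this
    exact (mul_eq_zero.1 this).resolve_left (hw p)

theorem norm_coef (f : E) (n : ℕ) : ‖coef f n‖ ≤ ‖f‖ * Real.exp (Real.sqrt n) := by
  have h1 : ‖f.1‖ ≤ ‖f‖ := norm_fst_le f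
  have h2 : ‖f.2‖ ≤ ‖f‖ := norm_snd_le f
  have h3 : ‖f.2.1‖ ≤ ‖f‖ := (norm_fst_le f.2).trans h2
  have h4 : ‖f.2.2‖ ≤ ‖f‖ := (norm_snd_le f.2).trans h2
  rcases ex_cover n with rfl | ⟨p, rfl⟩ | ⟨p, rfl⟩
  · rw [coef_zero]
    simpa using h1
  · rw [coef_ex, norm_mul, Complex.norm_real, Real.norm_of_nonneg (wt_pos p).le, mul_comm]
    have h5 : ‖f.2.1 p‖ ≤ ‖f.2.1‖ := lp.norm_apply_le_norm (by norm_num) _ _
    exact mul_le_mul (h5.trans h3) le_rfl (wt_pos p).le (norm_nonneg _)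
  · rw [coef_two, norm_mul, Complex.norm_real, Real.norm_of_nonneg (wt_pos p).le, mul_comm]
    have h5 : ‖f.2.2 p‖ ≤ ‖f.2.2‖ := lp.norm_apply_le_norm (by norm_num) _ _
    refine mul_le_mul (h5.trans h4) ?_ (wt_pos p).le (norm_nonneg _)
    refine Real.exp_le_exp.2 (Real.sqrt_le_sqrt ?_)
    push_cast
    have : (0 : ℝ) ≤ ex p := by positivity
    linarith

theorem summable_aux (r : ℝ) (h0 : 0 ≤ r) (h1 : r < 1) :
    Summable fun n : ℕ => Real.exp (Real.sqrt n) * r ^ n := by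
  set q : ℝ := (1 + r) / 2 with hq
  have hq0 : 0 < q := by rw [hq]; linarith
  have hq1 : q < 1 := by rw [hq]; linarith
  have hrq : r ≤ q * q := by rw [hq]; nlinarith [sq_nonneg (1 - r)]
  set L : ℝ := -Real.log q with hL
  have hLpos : 0 < L := by
    rw [hL]
    linarith [Real.log_neg hq0 hq1]
  have hsum : Summable fun n : ℕ => Real.exp (1 / (4 * L)) * q ^ n :=
    (summable_geometric_of_lt_one hq0.le hq1).mul_left _
  refine Summable.of_nonneg_of_le (fun n => by positivity) (fun n => ?_) hsum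
  have h2 : r ^ n ≤ q ^ n * q ^ n := by
    rw [← mul_pow]
    exact pow_le_pow_left₀ h0 hrq n
  have h3 : q ^ n = Real.exp (-(L * n)) := by
    rw [← Real.rpow_natCast, Real.rpow_def_of_pos hq0, hL]
    congr 1
    ring
  have h4 : Real.exp (Real.sqrt n) * q ^ n ≤ Real.exp (1 / (4 * L)) := by
    rw [h3, ← Real.exp_add]
    refine Real.exp_le_exp.2 ?_
    have hs : Real.sqrt n ^ 2 = n := Real.sq_sqrt (by positivity)
    have h5 : 0 ≤ L * (Real.sqrt n - 1 / (2 * L)) ^ 2 := by positivity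
    have h6 : L * (Real.sqrt n - 1 / (2 * L)) ^ 2 = L * Real.sqrt n ^ 2 - Real.sqrt n +
        1 / (4 * L) := by
      field_simp
      ring
    rw [h6, hs] at h5
    linarith
  calc Real.exp (Real.sqrt n) * r ^ n ≤ Real.exp (Real.sqrt n) * (q ^ n * q ^ n) := by gcongr
    _ = (Real.exp (Real.sqrt n) * q ^ n) * q ^ n := by ring
    _ ≤ _ := by gcongr

/-- the analytic function of an element of `E` -/
noncomputable def J (f : E) (z : ℂ) : ℂ := ∑' n, coef f n * z ^ n

theorem norm_term (f : E) (z : ℂ) (n : ℕ) :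
    ‖coef f n * z ^ n‖ ≤ ‖f‖ * (Real.exp (Real.sqrt n) * ‖z‖ ^ n) := by
  rw [norm_mul, norm_pow, ← mul_assoc]
  exact mul_le_mul_of_nonneg_right (norm_coef f n) (by positivity)

theorem summable_J (f : E) {z : ℂ} (hz : z ∈ ball (0 : ℂ) 1) :
    Summable fun n => coef f n * z ^ n := by
  rw [mem_ball_zero_iff] at hz
  exact Summable.of_norm_bounded ((summable_aux _ (norm_nonneg z) hz).mul_left ‖f‖)
    (norm_term f z)

theorem hasFPS (f : E) : ∃ r : ℝ≥0∞, 1 ≤ r ∧
    HasFPowerSeriesOnBall (J f) (FormalMultilinearSeries.ofScalars ℂ (coef f)) 0 r := by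
  set p := FormalMultilinearSeries.ofScalars ℂ (coef f) with hp
  have hr : 1 ≤ p.radius := by
    refine ENNReal.le_of_forall_nnreal_lt fun r hr => p.le_radius_of_summable_norm ?_
    have hr' : (r : ℝ) < 1 := by exact_mod_cast hr
    refine Summable.of_nonneg_of_le (fun n => by positivity) (fun n => ?_)
      ((summable_aux r r.2 hr').mul_left ‖f‖)
    rw [hp, FormalMultilinearSeries.ofScalars_norm, ← mul_assoc]
    exact mul_le_mul_of_nonneg_right (norm_coef f n) (by positivity)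
  refine ⟨p.radius, hr, ?_⟩
  have h1 := p.hasFPowerSeriesOnBall (lt_of_lt_of_le one_pos hr)
  have h2 : p.sum = J f := by
    funext z
    rw [FormalMultilinearSeries.sum, J]
    refine tsum_congr fun n => ?_
    rw [hp, FormalMultilinearSeries.ofScalars_apply_eq, smul_eq_mul]
  rw [h2] at h1
  exact h1

theorem isAnalyticSpace : IsAnalyticSpace E J where
  analytic f := by
    obtain ⟨r, hr, h⟩ := hasFPS f
    refine h.analyticOnNhd.mono ?_
    rw [← Metric.eball_ofReal, ENNReal.ofReal_one]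
    exact Metric.eball_subset_eball hr
  add f g z hz := by
    rw [J, J, J, ← (summable_J f hz).tsum_add (summable_J g hz)]
    exact tsum_congr fun n => by rw [coef_add]; ring
  smul c f z _ := by
    rw [J, J, ← tsum_mul_left]
    exact tsum_congr fun n => by rw [coef_smul]; ring
  inj f h := by
    obtain ⟨r, hr, hf⟩ := hasFPS f
    have h1 : J f =ᶠ[𝓝 0] 0 := by
      filter_upwards [ball_mem_nhds (0 : ℂ) one_pos] with z hz using h z hz
    have h2 := (hf.hasFPowerSeriesAt.congr h1).eq_zero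
    refine eq_zero_of_coef f fun n => ?_
    have h3 : ‖FormalMultilinearSeries.ofScalars ℂ (coef f) n‖ = 0 := by
      rw [h2]
      simp
    rw [FormalMultilinearSeries.ofScalars_norm] at h3
    exact norm_eq_zero.1 h3
  eval z hz := by
    have hz' := mem_ball_zero_iff.1 hz
    let L : E →ₗ[ℂ] ℂ :=
      { toFun := fun f => J f z
        map_add' := fun f g => by
          rw [J, J, J, ← (summable_J f hz).tsum_add (summable_J g hz)]
          exact tsum_congr fun n => by rw [coef_add]; ring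
        map_smul' := fun c f => by
          rw [J, J, RingHom.id_apply, smul_eq_mul, ← tsum_mul_left]
          exact tsum_congr fun n => by rw [coef_smul]; ring }
    have hb : ∀ f, ‖L f‖ ≤ (∑' n : ℕ, Real.exp (Real.sqrt n) * ‖z‖ ^ n) * ‖f‖ := by
      intro f
      rw [mul_comm, ← tsum_mul_left]
      exact tsum_of_norm_bounded ((summable_aux _ (norm_nonneg z) hz').mul_left ‖f‖).hasSum
        (norm_term f z)
    exact (L.mkContinuous _ hb).continuous

end Q170.SS
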